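import Pool.Agent.V11103.Speed

/-!
The convex relaxation of the jerk-constrained speed planning problem is not exact in general.
-/

namespace Pool.Agent.Results.MP_6d6828_an.RelaxationNotExact

open Pool.Agent.V11103.Speed

/-- There are `n ≥ 3`, `h, A, J > 0`, positive bounds `w_i^max` and `ρ₀ > 0` such that for every
`ρ` with `0 < ρ ≤ ρ₀` the relaxation (R) is not exact. -/
theorem result : ∃ (n : ℕ) (h A J ρ₀ : ℝ) (wmax : ℕ → ℝ), 3 ≤ n ∧ 0 < h ∧ 0 < A ∧ 0 < J ∧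
    0 < ρ₀ ∧ (∀ i ∈ Finset.Icc 2 (n - 1), 0 < wmax i) ∧
    ∀ ρ : ℝ, 0 < ρ → ρ ≤ ρ₀ → ¬ IsExact n h ρ A J wmax :=
  ⟨51, 1, 1, 2, 1 / 1000, wm, by norm_num, by norm_num, by norm_num, by norm_num, by norm_num,
    wm_pos, fun _ h1 h2 => not_exact h1 h2⟩

end Pool.Agent.Results.MP_6d6828_an.RelaxationNotExact
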